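import Mathlib
import Pool.Agent.P.MP_bd026d_co.Defs
import Pool.Agent.P.MP_bd026d_co.Main

namespace Pool.Agent.Results.MP_bd026d_co.NPHard

open Pool.Agent.P.MP_ba7db8_lc Pool.Agent.P.MP_bd026d_co

theorem result (L : Set (List Bool)) (hL : InNP L) :
    ∃ f : List Bool → List Bool, Nonempty (Turing.TM2ComputableInPolyTime id id f) ∧
      ∀ x, ∃ (E A : List (List Bool)) (M : ℕ → Matroid ℕ), f x = code E A ∧ Represents E A M ∧
        Temporal E.length M ∧
        (∀ i, i + 1 < E.length → (symmDiff (M i).E (M (i + 1)).E).ncard = 1) ∧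
        (x ∈ L ↔ SimGraphic E.length M) :=
  np_hard L hL

end Pool.Agent.Results.MP_bd026d_co.NPHard
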