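import Mathlib
import Pool.Agent.P.MP_bd026d_co.Defs
import Pool.Agent.P.MP_bd026d_co.Main

namespace Pool.Agent.Results.MP_bd026d_co.OracleHard

open Pool.Agent.P.MP_ba7db8_lc Pool.Agent.P.MP_bd026d_co

theorem result (Q : List Bool → List Bool) (D : List Bool → Bool) (p : Polynomial ℕ)
    (hQ : Nonempty (Turing.TM2ComputableInPolyTime id id Q))
    (hD : Nonempty (Turing.TM2ComputableInPolyTime id Computability.encodeBool D))
    (hdec : ∀ (E A : List (List Bool)) (M : ℕ → Matroid ℕ), Represents E A M →
      Temporal E.length M →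
      (∀ i, i + 1 < E.length → (symmDiff (M i).E (M (i + 1)).E).ncard = 1) →
      (D (pair (code E A) (answers Q (oracle E.length M) (code E A) (p.eval (code E A).length))) =
        true ↔ SimGraphic E.length M))
    (L : Set (List Bool)) (hL : InNP L) :
    ∃ d : List Bool → Bool,
      Nonempty (Turing.TM2ComputableInPolyTime id Computability.encodeBool d) ∧
        ∀ x, x ∈ L ↔ d x = true :=
  oracle_hard Q D p hQ hD hdec L hL

end Pool.Agent.Results.MP_bd026d_co.OracleHard
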